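import Pool.Agent.Y395.RW.Fin

set_option autoImplicit false

/-!
# Project RP: all graphs of the random graph process are reconstructible

Definitions and the statements of the pieces.  `P p Q` is the probability of `Q` in `G(n, p)`; the
graph with the edge set `F` is `gr F`.  `Rn G x`: the vertex `x` is fixed by all near-automorphisms
of `G` (`IsNA`: permutations of the vertices which preserve the adjacency of all pairs avoiding two
vertices).  A graph in which more than half of the vertices are `Rn` is reconstructible (`HALF`).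
-/

namespace Pool.Agent.Run7.h202.RP

open Finset Filter Pool.Agent.H234RC Pool.Agent.TH953.RC Pool.Agent.Y395.RS Pool.Agent.Y395.RW

/-- the probability of `Q` in `G(n, p)` -/
noncomputable def P {V : Type} [Fintype V] [DecidableEq V] (p : ℝ)
    (Q : Finset (Sym2 V) → Prop) : ℝ := pr (fun _ => p) (pairs V) Q

/-- the degree of `x` -/
noncomputable def dg {V : Type} [Fintype V] (F : Finset (Sym2 V)) (x : V) : ℕ :=
  (nb (gr F) univ x).card

open Classical in
/-- the number of common neighbours -/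
noncomputable def cod {V : Type} [Fintype V] (F : Finset (Sym2 V)) (x y : V) : ℕ :=
  (univ.filter (fun z => (gr F).Adj x z ∧ (gr F).Adj y z)).card

/-- light vertices: the degree is less than `log n / 1000` -/
def Light {V : Type} [Fintype V] (F : Finset (Sym2 V)) (x : V) : Prop :=
  (dg F x : ℝ) < Real.log (Fintype.card V) / 1000

open Classical in
/-- the number of the light neighbours -/
noncomputable def lnb {V : Type} [Fintype V] (F : Finset (Sym2 V)) (x : V) : ℕ :=
  (univ.filter (fun w => (gr F).Adj x w ∧ Light F w)).card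

open Classical in
/-- the number of the edges inside `S` -/
noncomputable def eIn {V : Type} (F : Finset (Sym2 V)) (S : Finset V) : ℕ :=
  (F.filter (fun e => ∀ v ∈ e, v ∈ S)).card

open Classical in
/-- the number of the pairs in `S × W` which are edges -/
noncomputable def eBt {V : Type} (F : Finset (Sym2 V)) (S W : Finset V) : ℕ :=
  ((S ×ˢ W).filter (fun q => s(q.1, q.2) ∈ F)).card

/-- there are many edges between disjoint sets of linear size -/
def Bip {V : Type} [Fintype V] (p ε : ℝ) (F : Finset (Sym2 V)) : Prop :=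
  ∀ S W : Finset V, Disjoint S W → ε * Fintype.card V ≤ (S.card : ℝ) →
    (Fintype.card V : ℝ) / 4 ≤ (W.card : ℝ) → p * S.card * W.card / 2 ≤ (eBt F S W : ℝ)

/-- the sparse range -/
def Rg (n : ℕ) (p : ℝ) : Prop :=
  Real.log n / (8 * n) ≤ p ∧ p ≤ 400 * Real.log n / n

/-- the share of the edge sets with `m` elements having the property `Q` -/
noncomputable def frac {V : Type} [Fintype V] [DecidableEq V] (m : ℕ)
    (Q : Finset (Sym2 V) → Prop) : ℝ := by
  classical
  exact (((pairs V).powersetCard m).filter (fun F => Q F)).card / ((pairs V).card.choose m : ℝ)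

/-- the orderings of the pairs -/
abbrev Ord (V : Type) [Fintype V] [DecidableEq V] :=
  Fin (pairs V).card ≃ {e : Sym2 V // e ∈ pairs V}

/-- the first `m` pairs -/
noncomputable def pre {V : Type} [Fintype V] [DecidableEq V] (σ : Ord V) (m : ℕ) :
    Finset (Sym2 V) :=
  (univ.filter (fun i : Fin (pairs V).card => i.val < m)).image (fun i => (σ i : Sym2 V))

/-! ### The pieces -/

/-- JOINT: prescribed edges and a lower tail, for disjoint sets of pairs.
Proof: `P` is multiplicative over disjoint sets of pairs (`pr_split`, `wt_union`); the lower tail is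
`E exp (-X) = (1 - p (1 - 1/e)) ^ |I| ≤ exp (-(3/5) p |I|)`. -/
def JOINT : Prop := ∀ (V : Type) [Fintype V] [DecidableEq V] (p k : ℝ) (A I : Finset (Sym2 V)),
  0 ≤ p → p ≤ 1 → A ⊆ pairs V → I ⊆ pairs V → Disjoint A I →
  P p (fun F => A ⊆ F ∧ ((F ∩ I).card : ℝ) ≤ k) ≤
    p ^ A.card * Real.exp (k - 3 / 5 * p * I.card)

/-- COD: no two vertices have 12 common neighbours. Union bound: `n ^ 14 p ^ 24`. -/
def COD : Prop := ∀ᶠ n : ℕ in atTop, ∀ (V : Type) [Fintype V] [DecidableEq V] (p : ℝ),
  Fintype.card V = n → Rg n p →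
  P (V := V) p (fun F => ∃ x y, x ≠ y ∧ 12 ≤ cod F x y) ≤ 1 / (n : ℝ) ^ 8

/-- STAR: no vertex has 200 light neighbours. Union over the vertex `x` and a set `W` of 200
neighbours; JOINT with the 200 pairs `xw` and the set `I` of the pairs between `W` and the rest
without `x`: `|I| = 200 (n - 201)`, and fewer than `200 log n / 1000` of them are edges. -/
def STAR : Prop := ∀ᶠ n : ℕ in atTop, ∀ (V : Type) [Fintype V] [DecidableEq V] (p : ℝ),
  Fintype.card V = n → Rg n p →
  P (V := V) p (fun F => ∃ x, 200 ≤ lnb F x) ≤ 1 / (n : ℝ) ^ 8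

/-- SPARSE: small sets of vertices span few edges. For `|S| = s`, `k ≥ s log n / 4000` edges:
`C(n,s) C(s^2/2, k) p^k ≤ n^s (e s^2 p / (2k))^k`. -/
def SPARSE : Prop := ∃ ε : ℝ, 0 < ε ∧ ∀ᶠ n : ℕ in atTop, ∀ (V : Type) [Fintype V] [DecidableEq V]
  (p : ℝ), Fintype.card V = n → Rg n p →
  P (V := V) p (fun F => ∃ S : Finset V, S.Nonempty ∧ (S.card : ℝ) ≤ ε * n ∧
    Real.log n / 2000 * S.card ≤ 2 * eIn F S) ≤ 1 / (n : ℝ) ^ 8

/-- BIP: `4 ^ n exp (-(1/10) p |S| |W|)` (JOINT with `A = ∅`). -/
def BIP : Prop := ∀ ε : ℝ, 0 < ε → ∀ᶠ n : ℕ in atTop, ∀ (V : Type) [Fintype V] [DecidableEq V]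
  (p : ℝ), Fintype.card V = n → Rg n p →
  P (V := V) p (fun F => ¬ Bip p ε F) ≤ 1 / (n : ℝ) ^ 8

/-- MOV: no near-automorphism moves a linear number of vertices. By `exists_indep` there is
`S ⊆ mv φ` with `|S| = ⌈ε n / 4⌉`, `φ S` disjoint from `S`; `W` = the vertices outside `S ∪ φ S` and
the break points. The pairs in `S × W` are mapped by `φ` to other pairs, so given the rest the trace
on `S × W` is determined, and it has at least `p |S| |W| / 2` elements by `Bip`: the probability is
at most `p ^ (p |S| |W| / 2)`, against `n! n^2` near-automorphisms. -/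
def MOV : Prop := ∀ ε : ℝ, 0 < ε → ∀ᶠ n : ℕ in atTop, ∀ (V : Type) [Fintype V] [DecidableEq V]
  (p : ℝ), Fintype.card V = n → Rg n p →
  P (V := V) p (fun F => Bip p (ε / 4) F ∧ ∃ φ : NAut V, IsNA (gr F) φ ∧
    ε * n ≤ ((mv φ).card : ℝ)) ≤ 1 / (n : ℝ) ^ 8

/-- MID: the middle range. As `Pool.Agent.Y395.RW.wcore` (with `72` replaced by `156`). -/
def MID : Prop := ∀ᶠ n : ℕ in atTop, ∀ (V : Type) [Fintype V] [DecidableEq V] (p : ℝ),
  Fintype.card V = n → 400 * Real.log n / n ≤ p → p ≤ 1 / 2 →
  P (V := V) p (fun F => ∃ y, ¬ Rn (gr F) y) ≤ 1 / (n : ℝ) ^ 8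

/-- ISO: there is an isolated vertex at `p = log n / (4 n)`. For a set `A` of `n ^ (3/8)` vertices:
no edge inside (`|A|^2 p`), and given this the vertices of `A` are independently isolated with
probability about `n ^ (-1/4)`. -/
def ISO : Prop := ∀ᶠ n : ℕ in atTop, ∀ (V : Type) [Fintype V] [DecidableEq V],
  Fintype.card V = n →
  P (V := V) (Real.log n / (4 * n)) (fun F => ∀ x, dg F x ≠ 0) ≤ 1 / (n : ℝ) ^ (1 / 6 : ℝ)

/-- DET: the deterministic core. If `φ` moves a vertex outside `L`, then the set `M` of the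
vertices outside `L` moved by `φ` has at most `s` elements, and every `x ∈ M` has at least
`d - 2 - c - l` neighbours in `M`: a neighbour `z` of `x` which is fixed is a common neighbour of
`x` and `φ x`. -/
def DET : Prop := ∀ (V : Type) [Fintype V] [DecidableEq V] (F : Finset (Sym2 V)) (L : Finset V)
  (d c l s : ℕ), F ⊆ pairs V → (∀ x, x ∉ L → d ≤ dg F x) →
  (∀ x y, x ≠ y → cod F x y ≤ c) → (∀ x, (nb (gr F) L x).card ≤ l) →
  (∀ S : Finset V, S.Nonempty → S.card ≤ s → 2 * eIn F S < (d - 2 - c - l) * S.card) →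
  (∀ φ : NAut V, IsNA (gr F) φ → (mv φ).card ≤ s) →
  ∀ x, x ∉ L → Rn (gr F) x

/-- DLIGHT: fewer than half of the vertices are light. -/
def DLIGHT : Prop := ∀ᶠ n : ℕ in atTop, ∀ (V : Type) [Fintype V] [DecidableEq V] (p : ℝ)
  (F : Finset (Sym2 V)), Fintype.card V = n → Rg n p → F ⊆ pairs V → Bip p (1 / 4) F →
  ∀ L : Finset V, (∀ x ∈ L, Light F x) → 2 * L.card + 2 ≤ n

/-- DISC: a graph with an isolated vertex is reconstructible (`Pool.Agent.R694.RC.main`). -/
def DISC : Prop := ∀ (V : Type) [Fintype V] [DecidableEq V] (G : SimpleGraph V),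
  3 ≤ Fintype.card V → (∃ x, ∀ y, ¬ G.Adj x y) → Reconstructible G

/-- T0: `G(n, p)` is a mixture of the models with `m` edges. -/
def T0 : Prop := ∀ (V : Type) [Fintype V] [DecidableEq V] (p : ℝ) (Q : Finset (Sym2 V) → Prop),
  P p Q = ∑ m ∈ range ((pairs V).card + 1),
    ((pairs V).card.choose m : ℝ) * p ^ m * (1 - p) ^ ((pairs V).card - m) * frac m Q

/-- T1: from `T0`; the term `m = p N` of the binomial distribution is at least `1 / (N + 1)`. -/
def T1 : Prop := ∀ (V : Type) [Fintype V] [DecidableEq V] (m : ℕ) (Q : Finset (Sym2 V) → Prop),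
  0 < (pairs V).card → m ≤ (pairs V).card →
  frac m Q ≤ ((pairs V).card + 1) * P ((m : ℝ) / (pairs V).card) Q

/-- T2: from `T0`, for increasing properties; `P(Bin(N,p) ≥ m) ≥ 1/2` by Chebyshev. -/
def T2 : Prop := ∀ (V : Type) [Fintype V] [DecidableEq V] (m : ℕ) (p : ℝ)
  (Q : Finset (Sym2 V) → Prop), 0 ≤ p → p ≤ 1 → (∀ F F', F ⊆ F' → Q F → Q F') →
  2 * (m : ℝ) ≤ p * (pairs V).card → 8 ≤ p * (pairs V).card → frac m Q ≤ 2 * P p Q

open Classical in
/-- ORD: the first `m` pairs of a random ordering are a random set. -/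
def ORD : Prop := ∀ (V : Type) [Fintype V] [DecidableEq V] (m : ℕ) (Q : Finset (Sym2 V) → Prop),
  m ≤ (pairs V).card →
  ((univ.filter (fun σ : Ord V => Q (pre σ m))).card : ℝ) =
    ((pairs V).card.factorial : ℝ) * frac m Q

end Pool.Agent.Run7.h202.RP
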