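import Pool.Agent.Run7.h202.RP.Stm

/-!
# Project RP: assembly, part one: `G(n, p)` in the whole range `log n / (8 n) ≤ p ≤ 1 / 2`
-/

set_option autoImplicit false

namespace Pool.Agent.Run7.h202.RP

open Finset Filter Pool.Agent.H234RC Pool.Agent.TH953.RC Pool.Agent.Y395.RS Pool.Agent.Y395.RW

theorem ev_log (C : ℝ) : ∀ᶠ n : ℕ in atTop, C ≤ Real.log n :=
  (Real.tendsto_log_atTop.comp tendsto_natCast_atTop_atTop).eventually_ge_atTop C

/-- `400 log n ≤ n` for large `n` -/
theorem ev_small : ∀ᶠ n : ℕ in atTop, 400 * Real.log n ≤ (n : ℝ) := by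
  have h := (Real.isLittleO_log_id_atTop.bound (show (0 : ℝ) < 1 / 400 by norm_num))
  filter_upwards [tendsto_natCast_atTop_atTop.eventually h, eventually_ge_atTop 1] with n hn h1
  simp only [id, Real.norm_eq_abs] at hn
  have h2 : (1 : ℝ) ≤ n := by exact_mod_cast h1
  rw [abs_of_nonneg (Real.log_nonneg h2), abs_of_nonneg (by linarith : (0 : ℝ) ≤ n)] at hn
  linarith

/-- the deterministic part of the sparse range -/
theorem det_sparse (hDET : DET) (n : ℕ) (hL : 424000 ≤ Real.log n) (V : Type) [Fintype V]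
    [DecidableEq V] (ε : ℝ) (F : Finset (Sym2 V)) (hn : Fintype.card V = n)
    (h3 : 3 ≤ n) (hF : F ⊆ pairs V)
    (h1 : ¬ ∃ x y, x ≠ y ∧ 12 ≤ cod F x y) (h2 : ¬ ∃ x, 200 ≤ lnb F x)
    (h4 : ¬ ∃ S : Finset V, S.Nonempty ∧ (S.card : ℝ) ≤ ε * n ∧
      Real.log n / 2000 * S.card ≤ 2 * eIn F S)
    (h5 : ¬ ∃ φ : NAut V, IsNA (gr F) φ ∧ ε * n ≤ ((mv φ).card : ℝ)) (hε : 0 < ε)
    (h6 : ∀ L : Finset V, (∀ x ∈ L, Light F x) → 2 * L.card + 2 ≤ n) :
    Reconstructible (gr F) := by
  classical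
  subst hn
  set L : Finset V := univ.filter (fun x => Light F x) with hLd
  have hmem : ∀ x, x ∈ L ↔ Light F x := fun x => by rw [hLd, mem_filter]; simp
  have hR : ∀ x, x ∉ L → Rn (gr F) x := by
    refine hDET V F L ⌈Real.log (Fintype.card V) / 1000⌉₊ 11 199
      ⌊ε * (Fintype.card V : ℝ)⌋₊ hF ?_ ?_ ?_ ?_ ?_
    · intro x hx
      rw [hmem] at hx
      unfold Light at hx
      push Not at hx
      exact Nat.ceil_le.2 hx
    · intro x y hxy
      by_contra hc
      exact h1 ⟨x, y, hxy, by omega⟩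
    · intro x
      have e : (nb (gr F) L x).card = lnb F x := by
        unfold lnb nb
        rw [hLd, filter_filter]
        congr 1
        ext w
        simp only [mem_filter, mem_univ, true_and]
        exact and_comm
      rw [e]
      by_contra hc
      exact h2 ⟨x, by omega⟩
    · intro S hS hSc
      have hSr : (S.card : ℝ) ≤ ε * (Fintype.card V : ℝ) :=
        (Nat.cast_le.2 hSc).trans (Nat.floor_le (by positivity))
      have h7 : 2 * (eIn F S : ℝ) < Real.log (Fintype.card V) / 2000 * S.card := by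
        by_contra hc
        exact h4 ⟨S, hS, hSr, not_lt.1 hc⟩
      have h8 : (Real.log (Fintype.card V) / 1000) ≤ (⌈Real.log (Fintype.card V) / 1000⌉₊ : ℝ) :=
        Nat.le_ceil _
      have h9 : 212 ≤ ⌈Real.log (Fintype.card V) / 1000⌉₊ := by
        have : (212 : ℝ) ≤ (⌈Real.log (Fintype.card V) / 1000⌉₊ : ℝ) := by linarith
        exact_mod_cast this
      have h10 : ((⌈Real.log (Fintype.card V) / 1000⌉₊ - 2 - 11 - 199 : ℕ) : ℝ) =
          (⌈Real.log (Fintype.card V) / 1000⌉₊ : ℝ) - 212 := by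
        rw [Nat.sub_sub, Nat.sub_sub, Nat.cast_sub (by omega)]
        norm_num
      have h11 : (0 : ℝ) < S.card := by exact_mod_cast hS.card_pos
      have h12 : 2 * (eIn F S : ℝ) <
          ((⌈Real.log (Fintype.card V) / 1000⌉₊ - 2 - 11 - 199 : ℕ) : ℝ) * S.card := by
        refine h7.trans_le (mul_le_mul_of_nonneg_right ?_ h11.le)
        rw [h10]
        linarith
      exact_mod_cast h12
    · intro φ hφ
      have h7 : ((mv φ).card : ℝ) < ε * (Fintype.card V : ℝ) := by
        by_contra hc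
        exact h5 ⟨φ, hφ, not_lt.1 hc⟩
      exact Nat.le_floor h7.le
  refine Pool.Agent.Y297.RS.HALF.main V (gr F) h3 ?_
  have hsub : Mv (gr F) ⊆ L := by
    intro x hx
    rw [mem_Mv] at hx
    by_contra hc
    exact hx (hR x hc)
  have := h6 L (fun x hx => (hmem x).1 hx)
  have := card_le_card hsub
  omega

/-- `G(n, p)` in the whole range -/
theorem range_all (hCOD : COD) (hSTAR : STAR) (hSP : SPARSE) (hBIP : BIP) (hMOV : MOV)
    (hDET : DET) (hDL : DLIGHT) (hMID : MID) :
    ∀ᶠ n : ℕ in atTop, ∀ (V : Type) [Fintype V] [DecidableEq V] (p : ℝ), Fintype.card V = n →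
      Real.log n / (8 * n) ≤ p → p ≤ 1 / 2 →
      P (V := V) p (fun F => ¬ Reconstructible (gr F)) ≤ 6 / (n : ℝ) ^ 8 := by
  obtain ⟨ε, hε, hSP⟩ := hSP
  filter_upwards [hCOD, hSTAR, hSP, hBIP (1 / 4) (by norm_num), hBIP (ε / 4) (by linarith),
    hMOV ε hε, hDL, hMID, ev_log 424000, ev_small, eventually_ge_atTop 3] with n h1 h2 h3 h4 h5 h6
    h7 h8 h9 h10 h11
  intro V _ _ p hn hp1 hp2
  have hn0 : (0 : ℝ) < n := by
    have : 0 < n := by omega
    exact_mod_cast this
  have hp0 : 0 ≤ p := by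
    refine le_trans ?_ hp1
    apply div_nonneg (by linarith) (by positivity)
  have g0 : ∀ e : Sym2 V, 0 ≤ (fun _ : Sym2 V => p) e := fun _ => hp0
  have g1 : ∀ e : Sym2 V, (fun _ : Sym2 V => p) e ≤ 1 := fun _ => by linarith
  rcases le_or_gt (400 * Real.log n / n) p with hc | hc
  · -- the middle range
    refine le_trans ?_ ((h8 V p hn hc hp2).trans ?_)
    · refine pr_mono g0 g1 (fun F hF hR => ?_)
      by_contra hcc
      push Not at hcc
      apply hR
      refine Pool.Agent.Y297.RS.HALF.main V (gr F) (by omega) ?_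
      have : Mv (gr F) = ∅ := by
        ext x
        rw [mem_Mv]
        simp [hcc x]
      rw [this, card_empty, hn]
      omega
    · apply div_le_div_of_nonneg_right (by norm_num) (by positivity)
  · have hR : Rg n p := ⟨hp1, hc.le⟩
    have e1 := h1 V p hn hR
    have e2 := h2 V p hn hR
    have e3 := h3 V p hn hR
    have e4 := h4 V p hn hR
    have e5 := h5 V p hn hR
    have e6 := h6 V p hn hR
    have key : P (V := V) p (fun F => ¬ Reconstructible (gr F)) ≤
        P (V := V) p (fun F => ∃ x y, x ≠ y ∧ 12 ≤ cod F x y) +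
        (P (V := V) p (fun F => ∃ x, 200 ≤ lnb F x) +
        (P (V := V) p (fun F => ∃ S : Finset V, S.Nonempty ∧ (S.card : ℝ) ≤ ε * n ∧
          Real.log n / 2000 * S.card ≤ 2 * eIn F S) +
        (P (V := V) p (fun F => ¬ Bip p (1 / 4) F) +
        (P (V := V) p (fun F => ¬ Bip p (ε / 4) F) +
        P (V := V) p (fun F => Bip p (ε / 4) F ∧ ∃ φ : NAut V, IsNA (gr F) φ ∧
          ε * n ≤ ((mv φ).card : ℝ)))))) := by
      refine le_trans ?_ ((pr_or g0 g1 _ _ _).trans (add_le_add le_rfl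
        ((pr_or g0 g1 _ _ _).trans (add_le_add le_rfl
        ((pr_or g0 g1 _ _ _).trans (add_le_add le_rfl
        ((pr_or g0 g1 _ _ _).trans (add_le_add le_rfl
        (pr_or g0 g1 _ _ _)))))))))
      refine pr_mono g0 g1 (fun F hF hRec => ?_)
      by_contra hcc
      push Not at hcc
      obtain ⟨c1, c2, c3, c4, c5, c6⟩ := hcc
      apply hRec
      refine det_sparse hDET n h9 V ε F hn h11 hF ?_ ?_ ?_ ?_ hε ?_
      · rintro ⟨x, y, hxy, h⟩
        exact absurd h (not_le.2 (c1 x y hxy))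
      · rintro ⟨x, h⟩
        exact absurd h (not_le.2 (c2 x))
      · rintro ⟨S, hS, hSc, h⟩
        exact absurd h (not_le.2 (c3 S hS hSc))
      · rintro ⟨φ, hφ, h⟩
        exact absurd h (not_le.2 (c6 c5 φ hφ))
      · intro L hL
        exact h7 V p F hn hR hF c4 L hL
    have : 6 / (n : ℝ) ^ 8 = 1 / (n : ℝ) ^ 8 + (1 / (n : ℝ) ^ 8 + (1 / (n : ℝ) ^ 8 +
        (1 / (n : ℝ) ^ 8 + (1 / (n : ℝ) ^ 8 + 1 / (n : ℝ) ^ 8)))) := by ring
    rw [this]
    linarith

end Pool.Agent.Run7.h202.RP
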