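import Pool.Agent.Run7.h202.RP.Stm
import Pool.Agent.R694.RC.Tame

/-!
# Project RP: graphs with an isolated vertex
-/

set_option autoImplicit false

namespace Pool.Agent.Run7.h202.RP

theorem t_DISC : DISC := by
  classical
  intro V _ _ G h3 ⟨v, hv⟩
  refine (Pool.Agent.R694.RC.main G h3 Finset.univ (fun _ => 0) Pool.Agent.R694.RC.Tame.start
    (Or.inl ⟨v, Finset.mem_univ _, fun i => ⟨Set.univ, Set.mem_univ _, ?_⟩⟩)).1
  intro x _ y _ _ _ _ h
  exact absurd h (hv x)

end Pool.Agent.Run7.h202.RP
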