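import Pool.Agent.Run7.h202.RP.Asm1
import Pool.Agent.Run7.h202.RP.DISC

/-!
# Project RP: assembly, part two: the random graph process
-/

set_option autoImplicit false

namespace Pool.Agent.Run7.h202.RP

open Finset Filter Pool.Agent.H234RC Pool.Agent.TH953.RC Pool.Agent.Y395.RS Pool.Agent.Y395.RW

section

variable {V : Type} [Fintype V] [DecidableEq V]

theorem mem_pre (σ : Ord V) (m : ℕ) (e : Sym2 V) :
    e ∈ pre σ m ↔ ∃ i : Fin (pairs V).card, i.val < m ∧ (σ i : Sym2 V) = e := by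
  unfold pre
  rw [mem_image]
  constructor
  · rintro ⟨i, hi, h⟩
    exact ⟨i, (mem_filter.1 hi).2, h⟩
  · rintro ⟨i, hi, h⟩
    exact ⟨i, mem_filter.2 ⟨mem_univ _, hi⟩, h⟩

theorem pre_sub (σ : Ord V) (m : ℕ) : pre σ m ⊆ pairs V := by
  intro e he
  obtain ⟨i, -, rfl⟩ := (mem_pre σ m e).1 he
  exact (σ i).2

theorem pre_mono (σ : Ord V) {m m' : ℕ} (h : m ≤ m') : pre σ m ⊆ pre σ m' := by
  intro e he
  obtain ⟨i, hi, rfl⟩ := (mem_pre σ m e).1 he
  exact (mem_pre σ m' _).2 ⟨i, by omega, rfl⟩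

/-- the reversed ordering -/
def rv (σ : Ord V) : Ord V := Fin.revPerm.trans σ

theorem rv_rv (σ : Ord V) : rv (rv σ) = σ := by
  apply Equiv.ext
  intro i
  simp [rv]

theorem mem_pre_rv (σ : Ord V) (m : ℕ) (hm : m ≤ (pairs V).card) (e : Sym2 V) :
    e ∈ pre (rv σ) ((pairs V).card - m) ↔ e ∈ pairs V ∧ e ∉ pre σ m := by
  rw [mem_pre, mem_pre]
  constructor
  · rintro ⟨i, hi, rfl⟩
    refine ⟨(rv σ i).2, ?_⟩
    rintro ⟨j, hj, h⟩
    have h1 : σ j = σ i.rev := Subtype.ext h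
    have h2 : j = i.rev := σ.injective h1
    have h3 : j.val = (pairs V).card - (i.val + 1) := by rw [h2, Fin.val_rev]
    have := i.2
    omega
  · rintro ⟨he, h⟩
    obtain ⟨j, hj⟩ := σ.surjective ⟨e, he⟩
    have hjm : m ≤ j.val := by
      by_contra hc
      exact h ⟨j, by omega, by rw [hj]⟩
    refine ⟨j.rev, ?_, ?_⟩
    · rw [Fin.val_rev]
      have := j.2
      omega
    · show ((σ (j.rev).rev : {e : Sym2 V // e ∈ pairs V}) : Sym2 V) = e
      rw [Fin.rev_rev, hj]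

theorem gr_rv (σ : Ord V) (m : ℕ) (hm : m ≤ (pairs V).card) :
    gr (pre (rv σ) ((pairs V).card - m)) = (gr (pre σ m))ᶜ := by
  ext x y
  rw [SimpleGraph.compl_adj, gr_adj, gr_adj, mem_pre_rv σ m hm, mem_pairs]
  constructor
  · rintro ⟨⟨h1, h2⟩, h3⟩
    exact ⟨h3, fun h => h2 h.1⟩
  · rintro ⟨h1, h2⟩
    exact ⟨⟨h1, fun h => h2 ⟨h, h1⟩⟩, h1⟩

/-- one of the graphs of the process is not reconstructible -/
def Bad (σ : Ord V) : Prop :=
  ∃ m, m ≤ (pairs V).card ∧ ¬ Reconstructible (gr (pre σ m))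

/-- no isolated vertex -/
def NoIso (F : Finset (Sym2 V)) : Prop := ∀ x : V, dg F x ≠ 0

omit [DecidableEq V] in
theorem dg_eq_zero (F : Finset (Sym2 V)) (x : V) : dg F x = 0 ↔ ∀ y, ¬ (gr F).Adj x y := by
  unfold dg
  rw [card_eq_zero]
  constructor
  · intro h y hy
    have : y ∈ nb (gr F) univ x := (mem_nb _ _ _ _).2 ⟨mem_univ _, hy⟩
    rw [h] at this
    exact absurd this (notMem_empty _)
  · intro h
    ext y
    rw [mem_nb]
    simp [h y]

omit [DecidableEq V] in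
theorem noIso_mono (F F' : Finset (Sym2 V)) (h : F ⊆ F') (hF : NoIso F) : NoIso F' := by
  intro x hx
  rw [dg_eq_zero] at hx
  refine hF x ((dg_eq_zero F x).2 (fun y hy => hx y ?_))
  rw [gr_adj] at hy ⊢
  exact ⟨h hy.1, hy.2⟩

theorem half (σ : Ord V) (h3 : 3 ≤ Fintype.card V) (m0 m : ℕ) (hm : m ≤ (pairs V).card)
    (h2 : 2 * m ≤ (pairs V).card) (h : ¬ Reconstructible (gr (pre σ m))) :
    NoIso (pre σ m0) ∨ ∃ m ∈ (range ((pairs V).card + 1)).filter
      (fun m => m0 < m ∧ 2 * m ≤ (pairs V).card), ¬ Reconstructible (gr (pre σ m)) := by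
  rcases le_or_gt m m0 with hc | hc
  · left
    intro x hx
    apply h
    rw [dg_eq_zero] at hx
    refine t_DISC V _ h3 ⟨x, fun y hy => hx y ?_⟩
    rw [gr_adj] at hy ⊢
    exact ⟨pre_mono σ hc hy.1, hy.2⟩
  · right
    exact ⟨m, mem_filter.2 ⟨mem_range.2 (by omega), hc, h2⟩, h⟩

theorem bad_cases (σ : Ord V) (h3 : 3 ≤ Fintype.card V) (m0 : ℕ) (h : Bad σ) :
    (NoIso (pre σ m0) ∨ ∃ m ∈ (range ((pairs V).card + 1)).filter
      (fun m => m0 < m ∧ 2 * m ≤ (pairs V).card), ¬ Reconstructible (gr (pre σ m))) ∨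
    (NoIso (pre (rv σ) m0) ∨ ∃ m ∈ (range ((pairs V).card + 1)).filter
      (fun m => m0 < m ∧ 2 * m ≤ (pairs V).card), ¬ Reconstructible (gr (pre (rv σ) m))) := by
  obtain ⟨m, hm, hR⟩ := h
  rcases le_or_gt (2 * m) (pairs V).card with hc | hc
  · exact Or.inl (half σ h3 m0 m hm hc hR)
  · right
    refine half (rv σ) h3 m0 ((pairs V).card - m) (by omega) (by omega) ?_
    rw [gr_rv σ m hm]
    intro h
    apply hR
    have := recon_compl _ h
    rwa [compl_compl] at this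

open Classical in
/-- the number of the orderings with a property -/
noncomputable def O (E : Ord V → Prop) : ℝ := ((univ.filter (fun σ : Ord V => E σ)).card : ℝ)

theorem O_mono {E E' : Ord V → Prop} (h : ∀ σ, E σ → E' σ) : O E ≤ O E' := by
  classical
  unfold O
  have : (univ.filter (fun σ : Ord V => E σ)).card ≤ (univ.filter (fun σ : Ord V => E' σ)).card :=
    card_le_card (fun σ hσ => mem_filter.2 ⟨mem_univ _, h σ (mem_filter.1 hσ).2⟩)
  exact_mod_cast this

theorem O_or (E E' : Ord V → Prop) : O (fun σ => E σ ∨ E' σ) ≤ O E + O E' := by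
  classical
  have e : ∀ D : Ord V → Prop, O D = ∑ σ : Ord V, (if D σ then (1 : ℝ) else 0) := by
    intro D
    unfold O
    rw [card_filter]
    push_cast
    rfl
  rw [e, e, e, ← sum_add_distrib]
  apply sum_le_sum
  intro σ _
  by_cases h : E σ <;> by_cases h' : E' σ <;> simp [h, h']

theorem O_ex (I : Finset ℕ) (E : ℕ → Ord V → Prop) :
    O (fun σ => ∃ m ∈ I, E m σ) ≤ ∑ m ∈ I, O (E m) := by
  classical
  induction I using Finset.induction_on with
  | empty =>
    unfold O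
    simp
  | insert a I ha ih =>
    rw [sum_insert ha]
    refine le_trans (O_mono (E' := fun σ => E a σ ∨ ∃ m ∈ I, E m σ) fun σ h => ?_)
      ((O_or _ _).trans (add_le_add le_rfl ih))
    obtain ⟨m, hm, h⟩ := h
    rcases mem_insert.1 hm with rfl | hm
    · exact Or.inl h
    · exact Or.inr ⟨m, hm, h⟩

theorem O_rv (E : Ord V → Prop) : O (fun σ => E (rv σ)) = O E := by
  classical
  unfold O
  congr 1
  refine card_bij' (fun σ _ => rv σ) (fun σ _ => rv σ) ?_ ?_ ?_ ?_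
  · intro σ hσ
    exact mem_filter.2 ⟨mem_univ _, (mem_filter.1 hσ).2⟩
  · intro σ hσ
    refine mem_filter.2 ⟨mem_univ _, ?_⟩
    show E (rv (rv σ))
    rw [rv_rv]
    exact (mem_filter.1 hσ).2
  · intro σ _
    exact rv_rv σ
  · intro σ _
    exact rv_rv σ

theorem card_pairs : (pairs V).card = (Fintype.card V).choose 2 := by
  unfold pairs
  rw [← Sym2.card_subtype_not_diag, Fintype.card_subtype]

end

theorem frac_nonneg {V : Type} [Fintype V] [DecidableEq V] (m : ℕ)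
    (Q : Finset (Sym2 V) → Prop) : 0 ≤ frac m Q := by
  classical
  unfold frac
  positivity

theorem ev_rate : ∀ᶠ n : ℕ in atTop,
    4 * (1 / (n : ℝ) ^ (1 / 6 : ℝ)) + 12 / (n : ℝ) ^ 4 ≤ 1 / (n : ℝ) ^ (1 / 7 : ℝ) := by
  have h : Tendsto (fun n : ℕ => (n : ℝ) ^ (1 / 42 : ℝ)) atTop atTop :=
    (tendsto_rpow_atTop (by norm_num)).comp tendsto_natCast_atTop_atTop
  filter_upwards [h.eventually_ge_atTop 16, eventually_ge_atTop 24] with n hn h24
  have h24' : (24 : ℝ) ≤ n := by exact_mod_cast h24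
  have hn0 : (0 : ℝ) < n := by linarith
  have e1 : (n : ℝ) ^ (1 / 6 : ℝ) = (n : ℝ) ^ (1 / 7 : ℝ) * (n : ℝ) ^ (1 / 42 : ℝ) := by
    rw [← Real.rpow_add hn0]
    norm_num
  have p7 : (0 : ℝ) < (n : ℝ) ^ (1 / 7 : ℝ) := Real.rpow_pos_of_pos hn0 _
  have p42 : (0 : ℝ) < (n : ℝ) ^ (1 / 42 : ℝ) := Real.rpow_pos_of_pos hn0 _
  have e2 : (n : ℝ) ^ (1 / 7 : ℝ) ≤ n := by
    calc (n : ℝ) ^ (1 / 7 : ℝ) ≤ (n : ℝ) ^ (1 : ℝ) :=
          Real.rpow_le_rpow_of_exponent_le (by linarith) (by norm_num)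
      _ = n := Real.rpow_one _
  have a1 : 4 * (1 / (n : ℝ) ^ (1 / 6 : ℝ)) ≤ (1 / 4) * (1 / (n : ℝ) ^ (1 / 7 : ℝ)) := by
    rw [e1]
    have : 1 / ((n : ℝ) ^ (1 / 7 : ℝ) * (n : ℝ) ^ (1 / 42 : ℝ)) =
        (1 / (n : ℝ) ^ (1 / 7 : ℝ)) * (1 / (n : ℝ) ^ (1 / 42 : ℝ)) := by
      rw [one_div_mul_one_div]
    rw [this]
    have h16 : 1 / (n : ℝ) ^ (1 / 42 : ℝ) ≤ 1 / 16 :=
      one_div_le_one_div_of_le (by norm_num) hn
    have : 0 < 1 / (n : ℝ) ^ (1 / 7 : ℝ) := by positivity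
    nlinarith
  have a2 : 12 / (n : ℝ) ^ 4 ≤ (1 / 2) * (1 / (n : ℝ) ^ (1 / 7 : ℝ)) := by
    have h1 : 1 / (n : ℝ) ≤ 1 / (n : ℝ) ^ (1 / 7 : ℝ) := one_div_le_one_div_of_le p7 e2
    have h2 : 12 / (n : ℝ) ^ 4 ≤ (1 / 2) * (1 / (n : ℝ)) := by
      rw [div_le_iff₀ (by positivity)]
      have : (1 / 2) * (1 / (n : ℝ)) * (n : ℝ) ^ 4 = (1 / 2) * (n : ℝ) ^ 3 := by
        field_simp
      rw [this]
      have : (24 : ℝ) ≤ (n : ℝ) ^ 3 := by nlinarith [sq_nonneg (n : ℝ)]
      linarith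
    linarith
  have : 0 < 1 / (n : ℝ) ^ (1 / 7 : ℝ) := by positivity
  linarith

/-- the random graph process -/
theorem process (hCOD : COD) (hSTAR : STAR) (hSP : SPARSE) (hBIP : BIP) (hMOV : MOV)
    (hDET : DET) (hDL : DLIGHT) (hMID : MID) (hISO : ISO) (hT1 : T1) (hT2 : T2) (hORD : ORD) :
    ∀ᶠ n : ℕ in atTop, ∀ (V : Type) [Fintype V] [DecidableEq V], Fintype.card V = n →
      O (fun σ : Ord V => Bad σ) ≤ ((pairs V).card.factorial : ℝ) * (1 / (n : ℝ) ^ (1 / 7 : ℝ)) := by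
  filter_upwards [range_all hCOD hSTAR hSP hBIP hMOV hDET hDL hMID, hISO, ev_log 424000,
    ev_small, ev_rate, eventually_ge_atTop 3] with n h1 h2 h3 h4 h5 h6
  intro V _ _ hn
  classical
  have h6' : (3 : ℝ) ≤ n := by exact_mod_cast h6
  have hn0 : (0 : ℝ) < n := by linarith
  have hN : (pairs V).card = n.choose 2 := by rw [card_pairs, hn]
  have hNr : ((pairs V).card : ℝ) = n * (n - 1) / 2 := by
    rw [hN, Nat.cast_choose_two]
  have hN1 : 0 < (pairs V).card := by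
    have : (0 : ℝ) < ((pairs V).card : ℝ) := by
      rw [hNr]
      have : (0 : ℝ) < n - 1 := by linarith
      positivity
    exact_mod_cast this
  have hN1r : (0 : ℝ) < ((pairs V).card : ℝ) := by exact_mod_cast hN1
  have hN2 : ((pairs V).card : ℝ) + 1 ≤ (n : ℝ) ^ 2 := by
    rw [hNr]
    nlinarith
  set p0 : ℝ := Real.log n / (4 * n) with hp0
  have hp00 : 0 ≤ p0 := by
    rw [hp0]
    apply div_nonneg (by linarith) (by positivity)
  have hp01 : p0 ≤ 1 := by
    rw [hp0, div_le_one (by positivity)]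
    linarith
  have hpN : p0 * ((pairs V).card : ℝ) = Real.log n * (n - 1) / 8 := by
    rw [hNr, hp0]
    field_simp
    ring
  have hp8 : 8 ≤ p0 * ((pairs V).card : ℝ) := by
    rw [hpN]
    nlinarith
  set m0 : ℕ := ⌊p0 * ((pairs V).card : ℝ) / 2⌋₊ with hm0
  have hm01 : 2 * (m0 : ℝ) ≤ p0 * ((pairs V).card : ℝ) := by
    have := Nat.floor_le (show 0 ≤ p0 * ((pairs V).card : ℝ) / 2 by positivity)
    rw [← hm0] at this
    linarith
  have hm0N : m0 ≤ (pairs V).card := by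
    have : (m0 : ℝ) ≤ ((pairs V).card : ℝ) := by nlinarith
    exact_mod_cast this
  set I : Finset ℕ := (range ((pairs V).card + 1)).filter
      (fun m => m0 < m ∧ 2 * m ≤ (pairs V).card) with hI
  have eA : O (fun σ : Ord V => NoIso (pre σ m0)) ≤
      ((pairs V).card.factorial : ℝ) * (2 * (1 / (n : ℝ) ^ (1 / 6 : ℝ))) := by
    have e := hORD V m0 (fun F => NoIso F) hm0N
    have e' : O (fun σ : Ord V => NoIso (pre σ m0)) =
      ((pairs V).card.factorial : ℝ) * frac m0 (fun F => NoIso F) := e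
    rw [e']
    refine mul_le_mul_of_nonneg_left ?_ (by positivity)
    refine (hT2 V m0 p0 (fun F => NoIso F) hp00 hp01 noIso_mono hm01 hp8).trans ?_
    exact mul_le_mul_of_nonneg_left (h2 V hn) (by norm_num)
  have eB : O (fun σ : Ord V => ∃ m ∈ I, ¬ Reconstructible (gr (pre σ m))) ≤
      ((pairs V).card.factorial : ℝ) * (6 / (n : ℝ) ^ 4) := by
    refine (O_ex I (fun m σ => ¬ Reconstructible (gr (pre σ m)))).trans ?_
    have hterm : ∀ m ∈ I, O (fun σ : Ord V => ¬ Reconstructible (gr (pre σ m))) ≤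
        ((pairs V).card.factorial : ℝ) * (6 / (n : ℝ) ^ 6) := by
      intro m hm
      rw [hI, mem_filter, mem_range] at hm
      obtain ⟨g1, g2, g3⟩ := hm
      have e' : O (fun σ : Ord V => ¬ Reconstructible (gr (pre σ m))) =
        ((pairs V).card.factorial : ℝ) * frac m (fun F => ¬ Reconstructible (gr F)) :=
        hORD V m (fun F => ¬ Reconstructible (gr F)) (by omega)
      rw [e']
      refine mul_le_mul_of_nonneg_left ?_ (by positivity)
      refine (hT1 V m (fun F => ¬ Reconstructible (gr F)) hN1 (by omega)).trans ?_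
      have k1 : Real.log n / (8 * n) ≤ (m : ℝ) / ((pairs V).card : ℝ) := by
        rw [le_div_iff₀ hN1r]
        have k2 : p0 * ((pairs V).card : ℝ) / 2 < m := by
          have := Nat.lt_floor_add_one (p0 * ((pairs V).card : ℝ) / 2)
          rw [← hm0] at this
          have g2' : (m0 : ℝ) + 1 ≤ m := by exact_mod_cast g2
          linarith
        have k3 : Real.log n / (8 * n) = p0 / 2 := by
          rw [hp0]
          field_simp
          ring
        rw [k3]
        linarith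
      have k4 : (m : ℝ) / ((pairs V).card : ℝ) ≤ 1 / 2 := by
        rw [div_le_iff₀ hN1r]
        have : (2 * m : ℝ) ≤ ((pairs V).card : ℝ) := by exact_mod_cast g3
        linarith
      have k5 := h1 V ((m : ℝ) / ((pairs V).card : ℝ)) hn k1 k4
      calc ((pairs V).card + 1 : ℝ) * P ((m : ℝ) / (pairs V).card)
            (fun F => ¬ Reconstructible (gr F)) ≤ (n : ℝ) ^ 2 * (6 / (n : ℝ) ^ 8) := by
            apply mul_le_mul hN2 k5 _ (by positivity)
            exact pr_nonneg (fun _ => div_nonneg (Nat.cast_nonneg _) (Nat.cast_nonneg _))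
              (fun _ => k4.trans (by norm_num)) _ _
        _ = 6 / (n : ℝ) ^ 6 := by field_simp
    refine (sum_le_sum hterm).trans ?_
    rw [sum_const, nsmul_eq_mul]
    have hIc : (I.card : ℝ) ≤ (n : ℝ) ^ 2 := by
      have : I.card ≤ (pairs V).card + 1 := by
        rw [hI]
        refine (card_filter_le _ _).trans ?_
        rw [card_range]
      have h' : (I.card : ℝ) ≤ ((pairs V).card : ℝ) + 1 := by exact_mod_cast this
      linarith
    calc (I.card : ℝ) * (((pairs V).card.factorial : ℝ) * (6 / (n : ℝ) ^ 6))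
        ≤ (n : ℝ) ^ 2 * (((pairs V).card.factorial : ℝ) * (6 / (n : ℝ) ^ 6)) :=
          mul_le_mul_of_nonneg_right hIc (by positivity)
      _ = ((pairs V).card.factorial : ℝ) * (6 / (n : ℝ) ^ 4) := by field_simp
  have hAB : O (fun σ : Ord V => NoIso (pre σ m0) ∨
      ∃ m ∈ I, ¬ Reconstructible (gr (pre σ m))) ≤
      ((pairs V).card.factorial : ℝ) * (2 * (1 / (n : ℝ) ^ (1 / 6 : ℝ)) + 6 / (n : ℝ) ^ 4) := by
    refine (O_or _ _).trans ?_
    rw [mul_add]
    exact add_le_add eA eB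
  have hAB' : O (fun σ : Ord V => NoIso (pre (rv σ) m0) ∨
      ∃ m ∈ I, ¬ Reconstructible (gr (pre (rv σ) m))) ≤
      ((pairs V).card.factorial : ℝ) * (2 * (1 / (n : ℝ) ^ (1 / 6 : ℝ)) + 6 / (n : ℝ) ^ 4) := by
    rw [O_rv (fun σ : Ord V => NoIso (pre σ m0) ∨ ∃ m ∈ I, ¬ Reconstructible (gr (pre σ m)))]
    exact hAB
  refine (O_mono (fun σ h => bad_cases σ (by omega) m0 h)).trans ((O_or _ _).trans
    ((add_le_add hAB hAB').trans ?_))
  rw [← mul_add]
  refine mul_le_mul_of_nonneg_left ?_ (by positivity)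
  refine le_trans (le_of_eq ?_) h5
  ring

end Pool.Agent.Run7.h202.RP
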