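import Pool.Agent.Run7.h202.RP.Asm2

/-!
# Project RP: assembly, part three: the models with `m` edges and `G(n, p)`; transfer to `Fin n`
-/

set_option autoImplicit false

namespace Pool.Agent.Run7.h202.RP

open Finset Filter Pool.Agent.H234RC Pool.Agent.TH953.RC Pool.Agent.Y395.RS Pool.Agent.Y395.RW

section

variable {V : Type} [Fintype V] [DecidableEq V]

theorem ed_sub (H : SimpleGraph V) : ed H ⊆ pairs V := by
  intro e
  induction e using Sym2.ind with
  | _ x y =>
    rw [mem_ed, mem_pairs]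
    exact fun h => h.ne

theorem ed_gr {F : Finset (Sym2 V)} (hF : F ⊆ pairs V) : ed (gr F) = F := by
  ext e
  induction e using Sym2.ind with
  | _ x y => rw [mem_ed, adj_pairs hF]

omit [DecidableEq V] in
theorem coe_ed (H : SimpleGraph V) : (↑(ed H) : Set (Sym2 V)) = H.edgeSet := by
  ext e
  induction e using Sym2.ind with
  | _ x y => rw [mem_coe, mem_ed, SimpleGraph.mem_edgeSet]

open Classical in
/-- the graphs with `m` edges and a property, as sets of pairs -/
theorem ncard_graphs (m : ℕ) (R : SimpleGraph V → Prop) :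
    {G : SimpleGraph V | G.edgeSet.ncard = m ∧ R G}.ncard =
      (((pairs V).powersetCard m).filter (fun F => R (gr F))).card := by
  have e1 : {G : SimpleGraph V | G.edgeSet.ncard = m ∧ R G} =
      gr '' (↑(((pairs V).powersetCard m).filter (fun F => R (gr F))) : Set (Finset (Sym2 V))) := by
    ext G
    simp only [Set.mem_setOf_eq, Set.mem_image, coe_filter, mem_powersetCard]
    constructor
    · rintro ⟨h1, h2⟩
      refine ⟨ed G, ⟨⟨ed_sub G, ?_⟩, ?_⟩, gr_ed G⟩
      · rw [← coe_ed, Set.ncard_coe_finset] at h1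
        exact h1
      · rw [gr_ed]
        exact h2
    · rintro ⟨F, ⟨⟨h1, h2⟩, h3⟩, rfl⟩
      refine ⟨?_, h3⟩
      rw [← coe_ed, Set.ncard_coe_finset, ed_gr h1]
      exact h2
  rw [e1, Set.ncard_image_of_injOn, Set.ncard_coe_finset]
  intro F hF F' hF' h
  simp only [coe_filter, mem_powersetCard, Set.mem_setOf_eq] at hF hF'
  have := congrArg ed h
  rwa [ed_gr hF.1.1, ed_gr hF'.1.1] at this

end

/-- the assembled theorem -/
def Goal (n : ℕ) : Prop := ∀ (V : Type) [Fintype V] [DecidableEq V], Fintype.card V = n →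
  O (fun σ : Ord V => Bad σ) ≤ ((pairs V).card.factorial : ℝ) * (1 / (n : ℝ) ^ (1 / 7 : ℝ)) ∧
  (∀ m, m ≤ (pairs V).card → frac (V := V) m (fun F => ¬ Reconstructible (gr F)) ≤
    1 / (n : ℝ) ^ (1 / 7 : ℝ)) ∧
  (∀ p : ℝ, 0 ≤ p → p ≤ 1 → P (V := V) p (fun F => ¬ Reconstructible (gr F)) ≤
    1 / (n : ℝ) ^ (1 / 7 : ℝ))

theorem goal (hCOD : COD) (hSTAR : STAR) (hSP : SPARSE) (hBIP : BIP) (hMOV : MOV)
    (hDET : DET) (hDL : DLIGHT) (hMID : MID) (hISO : ISO) (hT0 : T0) (hT1 : T1) (hT2 : T2)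
    (hORD : ORD) : ∀ᶠ n : ℕ in atTop, Goal n := by
  filter_upwards [process hCOD hSTAR hSP hBIP hMOV hDET hDL hMID hISO hT1 hT2 hORD,
    eventually_ge_atTop 1] with n h1 h2
  intro V _ _ hn
  have hn0 : (0 : ℝ) < n := by exact_mod_cast h2
  have hr : 0 ≤ 1 / (n : ℝ) ^ (1 / 7 : ℝ) := by positivity
  have hm : ∀ m, m ≤ (pairs V).card → frac (V := V) m (fun F => ¬ Reconstructible (gr F)) ≤
      1 / (n : ℝ) ^ (1 / 7 : ℝ) := by
    intro m hm
    have e' : O (fun σ : Ord V => ¬ Reconstructible (gr (pre σ m))) =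
      ((pairs V).card.factorial : ℝ) * frac m (fun F => ¬ Reconstructible (gr F)) :=
      hORD V m (fun F => ¬ Reconstructible (gr F)) hm
    have e2 : O (fun σ : Ord V => ¬ Reconstructible (gr (pre σ m))) ≤
        O (fun σ : Ord V => Bad σ) := O_mono (fun σ h => ⟨m, hm, h⟩)
    rw [e'] at e2
    have e3 := e2.trans (h1 V hn)
    have hpos : (0 : ℝ) < ((pairs V).card.factorial : ℝ) := by
      exact_mod_cast Nat.factorial_pos _
    exact le_of_mul_le_mul_left e3 hpos
  refine ⟨h1 V hn, hm, ?_⟩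
  intro p hp0 hp1
  rw [hT0 V p (fun F => ¬ Reconstructible (gr F))]
  calc ∑ m ∈ range ((pairs V).card + 1), ((pairs V).card.choose m : ℝ) * p ^ m *
        (1 - p) ^ ((pairs V).card - m) * frac m (fun F => ¬ Reconstructible (gr F))
      ≤ ∑ m ∈ range ((pairs V).card + 1), ((pairs V).card.choose m : ℝ) * p ^ m *
        (1 - p) ^ ((pairs V).card - m) * (1 / (n : ℝ) ^ (1 / 7 : ℝ)) := by
        apply sum_le_sum
        intro m hmm
        rw [mem_range] at hmm
        apply mul_le_mul_of_nonneg_left (hm m (by omega))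
        have : 0 ≤ 1 - p := by linarith
        positivity
    _ = (p + (1 - p)) ^ (pairs V).card * (1 / (n : ℝ) ^ (1 / 7 : ℝ)) := by
        rw [← sum_mul, add_pow]
        congr 1
        apply sum_congr rfl
        intro m _
        ring
    _ = 1 / (n : ℝ) ^ (1 / 7 : ℝ) := by
        rw [add_sub_cancel, one_pow, one_mul]

/-- the pairs of different vertices -/
abbrev Pair (n : ℕ) := {e : Sym2 (Fin n) // ¬ e.IsDiag}

/-- the graph formed by the first `m` pairs -/
def stage {n : ℕ} (σ : Fin (n.choose 2) ≃ Pair n) (m : ℕ) : SimpleGraph (Fin n) :=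
  SimpleGraph.fromEdgeSet {e | ∃ i : Fin (n.choose 2), i.val < m ∧ (σ i : Sym2 (Fin n)) = e}

theorem cp (n : ℕ) : (pairs (Fin n)).card = n.choose 2 := by
  rw [card_pairs, Fintype.card_fin]

theorem mem_pairs' (n : ℕ) (e : Sym2 (Fin n)) : ¬ e.IsDiag ↔ e ∈ pairs (Fin n) := by
  unfold pairs
  rw [mem_filter]
  exact ⟨fun h => ⟨mem_univ _, h⟩, fun h => h.2⟩

/-- transfer of the orderings -/
def tr (n : ℕ) : (Fin (n.choose 2) ≃ Pair n) ≃ Ord (Fin n) :=
  Equiv.equivCongr (finCongr (cp n).symm) (Equiv.subtypeEquivRight (mem_pairs' n))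

theorem stage_eq {n : ℕ} (σ : Fin (n.choose 2) ≃ Pair n) (m : ℕ) :
    stage σ m = gr (pre (tr n σ) m) := by
  unfold stage gr
  congr 1
  ext e
  rw [Set.mem_setOf_eq, mem_coe, mem_pre]
  constructor
  · rintro ⟨i, hi, rfl⟩
    refine ⟨finCongr (cp n).symm i, hi, ?_⟩
    simp [tr, Equiv.equivCongr]
  · rintro ⟨i, hi, rfl⟩
    refine ⟨finCongr (cp n) i, hi, ?_⟩
    simp [tr, Equiv.equivCongr]

theorem stage_count (n : ℕ) :
    ({σ : Fin (n.choose 2) ≃ Pair n | ∃ m, m ≤ n.choose 2 ∧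
      ¬ Reconstructible (stage σ m)}.ncard : ℝ) = O (fun σ : Ord (Fin n) => Bad σ) := by
  classical
  unfold O
  congr 1
  rw [← Set.ncard_coe_finset, ← Set.ncard_image_of_injective _ (tr n).injective]
  congr 1
  ext τ
  simp only [Set.mem_image, Set.mem_setOf_eq, coe_filter, mem_univ, true_and]
  constructor
  · rintro ⟨σ, ⟨m, hm, h⟩, rfl⟩
    refine ⟨m, by rw [cp]; exact hm, ?_⟩
    rw [← stage_eq]
    exact h
  · rintro ⟨m, hm, h⟩
    refine ⟨(tr n).symm τ, ⟨m, by rw [← cp]; exact hm, ?_⟩, Equiv.apply_symm_apply _ _⟩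
    rw [stage_eq, Equiv.apply_symm_apply]
    exact h

theorem card_orderings (n : ℕ) :
    Nat.card (Fin (n.choose 2) ≃ Pair n) = (pairs (Fin n)).card.factorial := by
  classical
  rw [Nat.card_congr (tr n), Nat.card_eq_fintype_card,
    Fintype.card_equiv (Finset.equivFin (pairs (Fin n))).symm, Fintype.card_fin]

theorem final {n : ℕ} (h : Goal n) :
    (({σ : Fin (n.choose 2) ≃ Pair n | ∃ m, m ≤ n.choose 2 ∧
      ¬ Reconstructible (stage σ m)}.ncard : ℝ) ≤
        1 / (n : ℝ) ^ (1 / 7 : ℝ) * Nat.card (Fin (n.choose 2) ≃ Pair n)) ∧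
    (∀ m, m ≤ n.choose 2 →
      ({G : SimpleGraph (Fin n) | G.edgeSet.ncard = m ∧ ¬ Reconstructible G}.ncard : ℝ) ≤
        1 / (n : ℝ) ^ (1 / 7 : ℝ) * ((n.choose 2).choose m : ℝ)) ∧
    (∀ p : ℝ, 0 ≤ p → p ≤ 1 → P (V := Fin n) p (fun F => ¬ Reconstructible (gr F)) ≤
      1 / (n : ℝ) ^ (1 / 7 : ℝ)) := by
  classical
  obtain ⟨h1, h2, h3⟩ := h (Fin n) (Fintype.card_fin n)
  refine ⟨?_, ?_, h3⟩
  · rw [stage_count, card_orderings]
    linarith
  · intro m hm
    have h4 := h2 m (by rw [cp]; exact hm)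
    unfold frac at h4
    rw [div_le_iff₀ (by
      have : 0 < (pairs (Fin n)).card.choose m := Nat.choose_pos (by rw [cp]; exact hm)
      exact_mod_cast this)] at h4
    rw [ncard_graphs m (fun G => ¬ Reconstructible G)]
    rw [← cp n]
    exact h4

end Pool.Agent.Run7.h202.RP
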